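import Pool.Agent.Q178.GV.C
import Pool.Agent.Q178.GV.E

open Filter Topology Finset
open scoped ENNReal

namespace Pool.Agent.Results.MP_b91a69_an.InclusionCharacterized

/-- `lam` is a `Λ`-sequence: non-decreasing, positive, `∑ 1 / λ_i = ∞`. (The term `λ_i` of the
problem is `lam (i - 1)`.) -/
structure IsLambdaSeq (lam : ℕ → ℝ) : Prop where
  mono : Monotone lam
  pos : ∀ i, 0 < lam i
  div : ¬ Summable fun i => 1 / lam i

/-- `[s i, t i]`, `i < n`, are non-overlapping closed subintervals of `[a, b]`. -/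
def NonOverlapping (a b : ℝ) (n : ℕ) (s t : ℕ → ℝ) : Prop :=
  (∀ i < n, a ≤ s i ∧ s i < t i ∧ t i ≤ b) ∧
  ∀ i < n, ∀ j < n, i ≠ j → t i ≤ s j ∨ t j ≤ s i

/-- The Waterman variation `V_Λ(f)` on `[a, b]`: the supremum of `∑_{i < n} |f(I_i)| / lam i` over
all `n` and all families of non-overlapping closed subintervals `I_i = [s i, t i]`, `i < n`. -/
noncomputable def V (a b : ℝ) (lam : ℕ → ℝ) (f : ℝ → ℝ) : ℝ≥0∞ :=
  ⨆ (n : ℕ) (s : ℕ → ℝ) (t : ℕ → ℝ) (_ : NonOverlapping a b n s t),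
    ENNReal.ofReal (∑ i ∈ range n, |f (t i) - f (s i)| / lam i)

/-- `f ∈ ΛBV` -/
def BV (a b : ℝ) (lam : ℕ → ℝ) (f : ℝ → ℝ) : Prop := V a b lam f < ⊤

/-- `f ∈ ΛBV_c`: `f ∈ ΛBV` and `V_{Λ_(m)}(f) → 0`, where `Λ_(m)` is `Λ` without its first `m`
terms. -/
def BVc (a b : ℝ) (lam : ℕ → ℝ) (f : ℝ → ℝ) : Prop :=
  BV a b lam f ∧ Tendsto (fun m : ℕ => V a b (fun i => lam (m + i)) f) atTop (𝓝 0)

open Pool.Agent.Q178 GV

theorem V_le_iff {a b : ℝ} {lam : ℕ → ℝ} {f : ℝ → ℝ} {M : ℝ} (hM : 0 ≤ M) :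
    V a b lam f ≤ ENNReal.ofReal M ↔ GV.Bd a b lam f M := by
  unfold V
  rw [iSup_le_iff]
  constructor
  · intro h n s t hF
    have h1 := h n
    rw [iSup_le_iff] at h1
    have h2 := h1 s
    rw [iSup_le_iff] at h2
    have h3 := h2 t
    rw [iSup_le_iff] at h3
    exact (ENNReal.ofReal_le_ofReal_iff hM).1 (h3 hF)
  · intro h n
    refine iSup_le fun s => iSup_le fun t => iSup_le fun hF => ?_
    exact ENNReal.ofReal_le_ofReal (h n s t hF)

theorem tendsto_L {lam : ℕ → ℝ} (h : IsLambdaSeq lam) : Tendsto (GV.L lam) atTop atTop :=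
  (not_summable_iff_tendsto_nat_atTop_of_nonneg fun i => (one_div_pos.2 (h.pos i)).le).1 h.div

theorem le_V {a b : ℝ} {lam : ℕ → ℝ} {f : ℝ → ℝ} {n : ℕ} {s t : ℕ → ℝ}
    (h : NonOverlapping a b n s t) :
    ENNReal.ofReal (∑ i ∈ range n, |f (t i) - f (s i)| / lam i) ≤ V a b lam f :=
  le_iSup_of_le n (le_iSup_of_le s (le_iSup_of_le t (le_iSup_of_le h le_rfl)))

theorem fails_of {a b : ℝ} {gam lam : ℕ → ℝ} {f : ℝ → ℝ} {M c : ℝ} (hM : 0 ≤ M)
    (h1 : GV.Bd a b gam f M) (hc : 0 < c)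
    (h2 : ∀ m : ℕ, ∃ n s t, GV.IsFam a b n s t ∧ c ≤ GV.vsum (fun i => lam (m + i)) f n s t)
    (h : BV a b gam f → BVc a b lam f) : False := by
  have h3 : BV a b gam f := lt_of_le_of_lt ((V_le_iff hM).2 h1) ENNReal.ofReal_lt_top
  have h4 : ∀ m : ℕ, ENNReal.ofReal c ≤ V a b (fun i => lam (m + i)) f := by
    intro m
    obtain ⟨n, s, t, hF, h5⟩ := h2 m
    exact (ENNReal.ofReal_le_ofReal h5).trans (le_V hF)
  have h5 : ENNReal.ofReal c ≤ 0 := ge_of_tendsto' (h h3).2 h4
  rw [nonpos_iff_eq_zero, ENNReal.ofReal_eq_zero] at h5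
  linarith

/-- **The inclusion `ΓBV ⊆ ΛBV_c` characterized.** -/
theorem result (a b : ℝ) (hab : a < b) (gam lam : ℕ → ℝ) (hg : IsLambdaSeq gam)
    (hl : IsLambdaSeq lam) :
    (∀ f : ℝ → ℝ, BV a b gam f → BVc a b lam f) ↔
      ∀ ε : ℝ, 0 < ε → ∃ r : ℕ, 1 ≤ r ∧ ∃ N : ℕ, ∀ n ≥ N,
        ∑ i ∈ range (r * n), 1 / lam i ≤ ε * r * ∑ i ∈ range n, 1 / gam i := by
  have hG := tendsto_L hg
  have hL := tendsto_L hl
  constructor
  · intro h
    by_contra hcon
    push Not at hcon
    obtain ⟨ε, hε, hbad⟩ := hcon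
    by_cases hlu : ∀ B : ℝ, ∃ m, B ≤ lam m
    · obtain ⟨uu, hp⟩ := GV.exists_par (gam := gam) hl.pos hl.mono hL hlu (ε := ε)
        (fun r hr N => by
          obtain ⟨n, hn, h1⟩ := hbad r hr N
          exact ⟨n, hn, h1⟩)
      exact fails_of (by positivity : (0 : ℝ) ≤ 26 / ε) (hp.upper hε hg.pos hg.mono hab)
        (by norm_num : (0 : ℝ) < 1 / 4) (fun m => hp.lower hl.pos hab m) (h _)
    · push Not at hlu
      obtain ⟨B, hB⟩ := hlu
      have hB0 : 0 < B := (hl.pos 0).trans (hB 0)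
      have hg0 := hg.pos 0
      have h2 : GV.Bd a b gam (fun y => y) ((b - a) / gam 0) := by
        intro n s t hF
        unfold GV.vsum
        calc ∑ i ∈ range n, |t i - s i| / gam i ≤ ∑ i ∈ range n, (t i - s i) / gam 0 := by
              apply sum_le_sum
              intro i hi
              have h3 := (hF.1 i (mem_range.1 hi)).2.1
              rw [abs_of_pos (by linarith)]
              exact div_le_div_of_nonneg_left (by linarith) hg0 (hg.mono (Nat.zero_le i))
          _ = (∑ i ∈ range n, (t i - s i)) / gam 0 := by rw [sum_div]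
          _ ≤ (b - a) / gam 0 :=
              div_le_div_of_nonneg_right (GV.length_le hab.le hF) hg0.le
      refine fails_of (div_nonneg (by linarith) hg0.le) h2
        (div_pos (by linarith : 0 < b - a) hB0) (fun m => ?_) (h _)
      refine ⟨1, fun _ => a, fun _ => b, ⟨fun i _ => ⟨le_rfl, hab, le_rfl⟩, by omega⟩, ?_⟩
      unfold GV.vsum
      rw [sum_range_one, abs_of_pos (by linarith)]
      exact div_le_div_of_nonneg_left (by linarith) (hl.pos _) (hB _).le
  · intro hc f hf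
    obtain ⟨M, hM0, hM⟩ : ∃ M : ℝ, 0 ≤ M ∧ GV.Bd a b gam f M := by
      refine ⟨(V a b gam f).toReal, ENNReal.toReal_nonneg, ?_⟩
      rw [← V_le_iff ENNReal.toReal_nonneg, ENNReal.ofReal_toReal (ne_of_lt hf)]
    have key : ∀ c : ℝ, 0 < c → ∃ m, GV.Bd a b (fun i => lam (m + i)) f c := fun c hcpos =>
      GV.suff hab hg.pos hg.mono hl.pos hl.mono hG hc hM hcpos
    have key2 : ∀ c : ℝ, 0 < c → ∃ m0, ∀ m ≥ m0, GV.Bd a b (fun i => lam (m + i)) f c := by
      intro c hcpos
      obtain ⟨m0, hm0⟩ := key c hcpos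
      refine ⟨m0, fun m hm n s t hF => le_trans ?_ (hm0 n s t hF)⟩
      exact sum_le_sum fun i _ => div_le_div_of_nonneg_left (abs_nonneg _) (hl.pos _)
        (hl.mono (by omega))
    refine ⟨?_, ?_⟩
    · -- finiteness
      obtain ⟨m, hm⟩ := key 1 one_pos
      have hosc : ∀ s t : ℝ, a ≤ s → s < t → t ≤ b → |f t - f s| ≤ M * gam 0 := by
        intro s t h1 h2 h3
        have h4 := hM 1 (fun _ => s) (fun _ => t) ⟨fun i _ => ⟨h1, h2, h3⟩, by omega⟩
        unfold GV.vsum at h4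
        rw [sum_range_one, div_le_iff₀ (hg.pos 0)] at h4
        exact h4
      have hbd : GV.Bd a b lam f (m * (M * gam 0 / lam 0) + 1) := by
        intro n s t hF
        have hterm : ∀ i < n, |f (t i) - f (s i)| / lam i ≤ M * gam 0 / lam 0 := by
          intro i hi
          obtain ⟨h1, h2, h3⟩ := hF.1 i hi
          exact div_le_div₀ (mul_nonneg hM0 (hg.pos 0).le) (hosc _ _ h1 h2 h3) (hl.pos 0)
            (hl.mono (Nat.zero_le i))
        have hterm0 : 0 ≤ M * gam 0 / lam 0 :=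
          div_nonneg (mul_nonneg hM0 (hg.pos 0).le) (hl.pos 0).le
        unfold GV.vsum
        by_cases hnm : n ≤ m
        · calc ∑ i ∈ range n, |f (t i) - f (s i)| / lam i
              ≤ ∑ _i ∈ range n, M * gam 0 / lam 0 :=
                sum_le_sum fun i hi => hterm i (mem_range.1 hi)
            _ = n * (M * gam 0 / lam 0) := by rw [sum_const, card_range, nsmul_eq_mul]
            _ ≤ m * (M * gam 0 / lam 0) :=
                mul_le_mul_of_nonneg_right (by exact_mod_cast hnm) hterm0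
            _ ≤ _ := by linarith
        · obtain ⟨j, rfl⟩ : ∃ j, n = m + j := ⟨n - m, by omega⟩
          rw [sum_range_add]
          have h1 : ∑ i ∈ range m, |f (t i) - f (s i)| / lam i ≤ m * (M * gam 0 / lam 0) := by
            calc ∑ i ∈ range m, |f (t i) - f (s i)| / lam i
                ≤ ∑ _i ∈ range m, M * gam 0 / lam 0 :=
                  sum_le_sum fun i hi => hterm i (by have := mem_range.1 hi; omega)
              _ = m * (M * gam 0 / lam 0) := by rw [sum_const, card_range, nsmul_eq_mul]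
          have h2 := hm j (fun i => s (m + i)) (fun i => t (m + i))
            ⟨fun i hi => hF.1 (m + i) (by omega), fun i hi j' hj' hij =>
              hF.2 (m + i) (by omega) (m + j') (by omega) (by omega)⟩
          unfold GV.vsum at h2
          linarith
      have h3 : (0 : ℝ) ≤ m * (M * gam 0 / lam 0) + 1 := by
        have := hg.pos 0
        have := hl.pos 0
        positivity
      exact lt_of_le_of_lt ((V_le_iff h3).2 hbd) ENNReal.ofReal_lt_top
    · rw [ENNReal.tendsto_nhds_zero]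
      intro η hη
      by_cases htop : η = ⊤
      · simp [htop]
      · have hη' : 0 < η.toReal := ENNReal.toReal_pos hη.ne' htop
        obtain ⟨m0, hm0⟩ := key2 _ hη'
        filter_upwards [eventually_ge_atTop m0] with m hm
        have h1 := (V_le_iff ENNReal.toReal_nonneg).2 (hm0 m hm)
        rwa [ENNReal.ofReal_toReal htop] at h1

end Pool.Agent.Results.MP_b91a69_an.InclusionCharacterized
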